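import Mathlib

open MeasureTheory Set Filter Topology Real
open scoped RealInnerProductSpace FourierTransform

namespace Pool.Agent.H.MP_6e5b56_gt

lemma cauchy_int {a : ℝ} (ha : 0 < a) : Integrable fun ξ : ℝ => a / π / (a ^ 2 + ξ ^ 2) := by
  have := (integrable_inv_one_add_sq.comp_mul_left' (R := a⁻¹) (by positivity)).const_mul (a⁻¹ / π)
  convert this using 2 with ξ
  field_simp

lemma cauchy {a : ℝ} (ha : 0 < a) (t : ℝ) :
    ∫ ξ : ℝ, ((a / π / (a ^ 2 + ξ ^ 2) : ℝ) : ℂ) * Complex.exp (↑(t * ξ) * Complex.I) =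
      (exp (-(a * |t|)) : ℝ) := by
  let f : ℝ → ℂ := fun x => (exp (-(a * |x|)) : ℝ)
  have key : ∀ w : ℝ, Integrable (fun v : ℝ => Complex.exp (↑(-2 * π * v * w) * Complex.I) • f v) ∧
      ∫ v : ℝ, Complex.exp (↑(-2 * π * v * w) * Complex.I) • f v =
        ((2 * π * (a / π / (a ^ 2 + (2 * π * w) ^ 2)) : ℝ) : ℂ) := by
    intro w
    have r1 : 0 < ((a : ℂ) - ↑(2 * π * w) * Complex.I).re := by simpa using ha
    have r2 : (-(a : ℂ) - ↑(2 * π * w) * Complex.I).re < 0 := by simpa using ha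
    have e1 : EqOn (fun x : ℝ => Complex.exp (((a : ℂ) - ↑(2 * π * w) * Complex.I) * x))
        (fun v : ℝ => Complex.exp (↑(-2 * π * v * w) * Complex.I) • f v) (Iic 0) := by
      intro x hx
      simp only [f, abs_of_nonpos (mem_Iic.1 hx), smul_eq_mul, Complex.ofReal_exp,
        ← Complex.exp_add]
      congr 1; push_cast; ring
    have e2 : EqOn (fun x : ℝ => Complex.exp ((-(a : ℂ) - ↑(2 * π * w) * Complex.I) * x))
        (fun v : ℝ => Complex.exp (↑(-2 * π * v * w) * Complex.I) • f v) (Ioi 0) := by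
      intro x hx
      simp only [f, abs_of_pos (mem_Ioi.1 hx), smul_eq_mul, Complex.ofReal_exp,
        ← Complex.exp_add]
      congr 1; push_cast; ring
    have i1 := (integrableOn_exp_mul_complex_Iic r1 0).congr_fun e1 measurableSet_Iic
    have i2 := (integrableOn_exp_mul_complex_Ioi r2 0).congr_fun e2 measurableSet_Ioi
    refine ⟨?_, ?_⟩
    · rw [← integrableOn_univ, ← Iic_union_Ioi (a := (0 : ℝ))]
      exact i1.union i2
    · rw [← intervalIntegral.integral_Iic_add_Ioi i1 i2,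
        ← setIntegral_congr_fun measurableSet_Iic e1, ← setIntegral_congr_fun measurableSet_Ioi e2,
        integral_exp_mul_complex_Iic r1, integral_exp_mul_complex_Ioi r2]
      have n1 : (a : ℂ) - ↑(2 * π * w) * Complex.I ≠ 0 := fun h => by rw [h] at r1; simp at r1
      have n2 : -(a : ℂ) - ↑(2 * π * w) * Complex.I ≠ 0 := fun h => by rw [h] at r2; simp at r2
      have n3 : 2 * π * (a / π / (a ^ 2 + (2 * π * w) ^ 2)) = 2 * a / (a ^ 2 + (2 * π * w) ^ 2) := by
        field_simp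
      rw [n3]
      generalize 2 * π * w = b at *
      have n4 : (a : ℂ) ^ 2 + (b : ℂ) ^ 2 ≠ 0 := by
        exact_mod_cast (by positivity : a ^ 2 + b ^ 2 ≠ 0)
      simp only [Complex.ofReal_zero, mul_zero, Complex.exp_zero]
      push_cast
      field_simp
      linear_combination (-2 * a * b ^ 2) * Complex.I_sq
  have hF : 𝓕 f = fun w => ((2 * π * (a / π / (a ^ 2 + (2 * π * w) ^ 2)) : ℝ) : ℂ) := by
    ext w; rw [fourier_real_eq_integral_exp_smul, (key w).2]
  have i0 : Integrable f := by simpa using (key 0).1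
  have i1 : Integrable (𝓕 f) := by
    rw [hF]
    exact (((cauchy_int ha).comp_mul_left' (R := 2 * π) (by positivity)).const_mul _).ofReal
  have inv := i0.fourierInv_fourier_eq i1 (v := t) (by fun_prop)
  rw [fourierInv_eq', hF] at inv
  have := Measure.integral_comp_mul_left (fun ξ : ℝ => ((a / π / (a ^ 2 + ξ ^ 2) : ℝ) : ℂ) *
    Complex.exp (↑(t * ξ) * Complex.I)) (2 * π)
  rw [abs_of_pos (by positivity), eq_inv_smul_iff₀ (by positivity), ← integral_smul] at this
  rw [← this]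
  refine Eq.trans ?_ inv
  congr 1
  ext v
  simp only [RCLike.inner_apply, conj_trivial, smul_eq_mul, Complex.real_smul]
  rw [show t * (2 * π * v) = 2 * π * (t * v) by ring]
  push_cast
  ring

variable {V : Type} [NormedAddCommGroup V] [InnerProductSpace ℝ V] [MeasurableSpace V]
  [BorelSpace V] [FiniteDimensional ℝ V]

lemma mix {p : ℝ} (hp : 0 ≤ p) (hd : (Module.finrank ℝ V : ℝ) < 2 * (p + 1)) (x : V) :
    ∫ ξ : V, ((Gamma (p + 1) * (1 + ‖ξ‖ ^ 2) ^ (-(p + 1)) : ℝ) : ℂ) *
      Complex.exp (↑⟪x, ξ⟫ * Complex.I) =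
    ∫ s in Ioi (0 : ℝ), ((s ^ p * exp (-s) * (π / s) ^ ((Module.finrank ℝ V : ℝ) / 2) *
      exp (-‖x‖ ^ 2 / (4 * s)) : ℝ) : ℂ) := by
  have g : ∀ ξ : V, ∫ s in Ioi (0 : ℝ), s ^ p * exp (-((1 + ‖ξ‖ ^ 2) * s)) =
      Gamma (p + 1) * (1 + ‖ξ‖ ^ 2) ^ (-(p + 1)) := by
    intro ξ
    have := integral_rpow_mul_exp_neg_mul_Ioi (a := p + 1) (r := 1 + ‖ξ‖ ^ 2) (by linarith)
      (by positivity)
    rw [add_sub_cancel_right] at this
    rw [this, one_div, inv_rpow (by positivity), rpow_neg (by positivity), mul_comm]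
  have gi : ∀ ξ : V, IntegrableOn (fun s : ℝ => s ^ p * exp (-((1 + ‖ξ‖ ^ 2) * s))) (Ioi 0) := by
    intro ξ
    have := integrableOn_rpow_mul_exp_neg_mul_rpow (p := 1) (s := p) (b := 1 + ‖ξ‖ ^ 2)
      (by linarith) one_pos (by positivity)
    simpa only [rpow_one, neg_mul] using this
  let G : V → ℝ → ℂ := fun ξ s => ((s ^ p * exp (-((1 + ‖ξ‖ ^ 2) * s)) : ℝ) : ℂ) *
    Complex.exp (↑⟪x, ξ⟫ * Complex.I)
  have hG : Integrable (Function.uncurry G) (volume.prod (volume.restrict (Ioi 0))) := by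
    have m : AEStronglyMeasurable (Function.uncurry G) (volume.prod (volume.restrict (Ioi 0))) := by
      apply Measurable.aestronglyMeasurable
      simp only [G, Function.uncurry_def]
      fun_prop
    rw [integrable_prod_iff m]
    refine ⟨Eventually.of_forall fun ξ => (Integrable.ofReal (𝕜 := ℂ) (gi ξ)).mul_const
      (Complex.exp ((⟪x, ξ⟫ : ℝ) * Complex.I)), ?_⟩
    have := (integrable_rpow_neg_one_add_norm_sq (μ := volume) hd).const_mul (Gamma (p + 1))
    convert this using 2 with ξ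
    rw [show -(2 * (p + 1)) / 2 = -(p + 1) by ring, ← g]
    refine setIntegral_congr_fun measurableSet_Ioi fun s hs => ?_
    have : 0 < s := hs
    simp only [G, Function.uncurry_apply_pair, norm_mul, Complex.norm_exp_ofReal_mul_I, mul_one,
      Complex.norm_real, Real.norm_eq_abs]
    rw [abs_of_pos (by positivity), abs_of_pos (by positivity)]
  calc _ = ∫ ξ : V, ∫ s in Ioi (0 : ℝ), G ξ s := by
        congr 1
        ext ξ
        simp only [G]
        rw [integral_mul_const, integral_complex_ofReal, g]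
    _ = ∫ s in Ioi (0 : ℝ), ∫ ξ : V, G ξ s := integral_integral_swap hG
    _ = _ := by
        refine setIntegral_congr_fun measurableSet_Ioi fun s hs => ?_
        have hs : 0 < s := hs
        have := GaussianFourier.integral_cexp_neg_mul_sq_norm_add (b := s) (by simpa using hs)
          Complex.I x
        have e : ∀ ξ : V, G ξ s = ((s ^ p * exp (-s) : ℝ) : ℂ) *
            Complex.exp (-(s : ℂ) * ‖ξ‖ ^ 2 + Complex.I * ⟪x, ξ⟫) := by
          intro ξ
          simp only [G, Complex.ofReal_mul, Complex.ofReal_exp, mul_assoc, ← Complex.exp_add]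
          congr 2
          push_cast
          ring
        simp only [e]
        rw [integral_const_mul, this, Complex.I_sq]
        simp only [Complex.ofReal_mul, Complex.ofReal_exp]
        rw [Complex.ofReal_cpow (by positivity : 0 ≤ π / s)]
        push_cast
        ring_nf

/-- the plane -/
abbrev E := EuclideanSpace ℝ (Fin 2)

lemma poisson (x : E) : ∫ ξ : E, (((1 + ‖ξ‖ ^ 2) ^ (-(3 / 2) : ℝ) / (2 * π) : ℝ) : ℂ) *
    Complex.exp (↑⟪x, ξ⟫ * Complex.I) = (exp (-‖x‖) : ℝ) := by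
  have h1 := mix (V := ℝ) (p := 0) le_rfl (by simp) ‖x‖
  have h2 := mix (V := E) (p := 1 / 2) (by norm_num) (by norm_num) x
  have h3 := cauchy one_pos ‖x‖
  have e1 : ∫ ξ : ℝ, ((Gamma (0 + 1) * (1 + ‖ξ‖ ^ 2) ^ (-(0 + 1) : ℝ) : ℝ) : ℂ) *
      Complex.exp (↑⟪‖x‖, ξ⟫ * Complex.I) = π * (exp (-‖x‖) : ℝ) := by
    rw [one_mul, abs_norm] at h3
    rw [← h3, ← integral_const_mul]
    congr 1
    ext ξ
    rw [← mul_assoc, ← Complex.ofReal_mul]
    congr 2
    · simp [rpow_neg_one]
      field_simp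
    · simp [mul_comm]
  have e2 : ∫ s in Ioi (0 : ℝ), ((s ^ (1 / 2 : ℝ) * exp (-s) *
      (π / s) ^ ((Module.finrank ℝ E : ℝ) / 2) * exp (-‖x‖ ^ 2 / (4 * s)) : ℝ) : ℂ) =
      (√π : ℝ) * ∫ s in Ioi (0 : ℝ), ((s ^ (0 : ℝ) * exp (-s) *
      (π / s) ^ ((Module.finrank ℝ ℝ : ℝ) / 2) * exp (-‖‖x‖‖ ^ 2 / (4 * s)) : ℝ) : ℂ) := by
    rw [← integral_const_mul]
    refine setIntegral_congr_fun measurableSet_Ioi fun s hs => ?_
    have hs : 0 < s := hs
    simp only [← Complex.ofReal_mul]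
    congr 1
    simp only [finrank_euclideanSpace_fin, Module.finrank_self, Nat.cast_ofNat, Nat.cast_one,
      rpow_zero, norm_norm, ← sqrt_eq_rpow]
    rw [div_self two_ne_zero, rpow_one, sqrt_div pi_pos.le]
    have a1 := sq_sqrt hs.le
    have a2 := sq_sqrt pi_pos.le
    have a3 : 0 < √s := by positivity
    have : √s * (π / s) = √π * (√π / √s) := by
      field_simp
      rw [a1, a2]
    linear_combination (exp (-s) * exp (-‖x‖ ^ 2 / (4 * s))) * this
  rw [e2, ← h1, e1, Gamma_add_one (by norm_num), Gamma_one_half_eq] at h2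
  have n : ((√π * π : ℝ) : ℂ) ≠ 0 := by exact_mod_cast (by positivity : √π * π ≠ 0)
  apply mul_left_cancel₀ n
  rw [← integral_const_mul, Complex.ofReal_mul, mul_assoc, ← h2]
  congr 1
  ext ξ
  rw [← mul_assoc, ← Complex.ofReal_mul, ← Complex.ofReal_mul]
  congr 2
  norm_num
  field_simp

end Pool.Agent.H.MP_6e5b56_gt
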