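import Mathlib
import Pool.Agent.H.MP_6e5b56_gt.A

open MeasureTheory Set Filter Topology Real
open scoped RealInnerProductSpace

namespace Pool.Agent.H.MP_6e5b56_gt

variable {ι : Type} [Fintype ι]

/-- trigonometric sum -/
noncomputable def T (p : ι → E) (v : ι → ℝ) (ξ : E) : ℂ :=
  ∑ i, (v i : ℂ) * Complex.exp ((⟪p i, ξ⟫ : ℝ) * Complex.I)

lemma T_cont (p : ι → E) (v : ι → ℝ) : Continuous (T p v) := by unfold T; fun_prop

lemma T_int (p : ι → E) (v : ι → ℝ) {ρ : E → ℝ} (hρ : Integrable ρ) :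
    Integrable fun ξ => ρ ξ * ‖T p v ξ‖ ^ 2 := by
  refine hρ.mul_bdd (c := (∑ i, |v i|) ^ 2) ((T_cont p v).norm.pow 2).aestronglyMeasurable
    (Eventually.of_forall fun ξ => ?_)
  rw [Real.norm_of_nonneg (by positivity)]
  refine pow_le_pow_left₀ (norm_nonneg _) ((norm_sum_le _ _).trans (le_of_eq ?_)) 2
  simp [Complex.norm_exp_ofReal_mul_I]

lemma qf {ρ κ : E → ℝ} (hρ : Integrable ρ)
    (h : ∀ x, ∫ ξ : E, (ρ ξ : ℂ) * Complex.exp ((⟪x, ξ⟫ : ℝ) * Complex.I) = κ x)
    (p : ι → E) (v : ι → ℝ) :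
    ∑ i, ∑ j, v i * v j * κ (p i - p j) = ∫ ξ, ρ ξ * ‖T p v ξ‖ ^ 2 := by
  have i : ∀ x : E, Integrable fun ξ : E => (ρ ξ : ℂ) * Complex.exp ((⟪x, ξ⟫ : ℝ) * Complex.I) :=
    fun x => (Integrable.ofReal (𝕜 := ℂ) hρ).mul_bdd (c := 1)
      (Continuous.aestronglyMeasurable (by fun_prop))
      (Eventually.of_forall fun ξ => by rw [Complex.norm_exp_ofReal_mul_I])
  apply Complex.ofReal_injective
  rw [← integral_complex_ofReal]
  have e : ∀ ξ, ((ρ ξ * ‖T p v ξ‖ ^ 2 : ℝ) : ℂ) = ∑ i, ∑ j, ((v i * v j : ℝ) : ℂ) *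
      ((ρ ξ : ℂ) * Complex.exp ((⟪p i - p j, ξ⟫ : ℝ) * Complex.I)) := by
    intro ξ
    rw [Complex.ofReal_mul, Complex.ofReal_pow, ← Complex.mul_conj']
    simp only [T, map_sum, map_mul, Complex.conj_ofReal, ← Complex.exp_conj, Complex.conj_I,
      inner_sub_left]
    rw [Finset.sum_mul_sum]
    simp only [Finset.mul_sum]
    refine Finset.sum_congr rfl fun i _ => Finset.sum_congr rfl fun j _ => ?_
    push_cast
    rw [sub_mul, sub_eq_add_neg, Complex.exp_add, mul_neg]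
    ring
  simp only [e]
  rw [integral_finsetSum _ fun a _ => integrable_finsetSum _ fun b _ => (i _).const_mul _]
  push_cast
  refine Finset.sum_congr rfl fun a _ => ?_
  rw [integral_finsetSum _ fun b _ => (i _).const_mul _]
  refine Finset.sum_congr rfl fun b _ => ?_
  rw [integral_const_mul, h]

/-- Poisson density -/
noncomputable def P (ξ : E) : ℝ := (1 + ‖ξ‖ ^ 2) ^ (-(3 / 2) : ℝ) / (2 * π)

lemma P_int : Integrable P := by
  have := (integrable_rpow_neg_one_add_norm_sq (μ := (volume : Measure E)) (r := 3)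
    (by norm_num)).div_const (2 * π)
  convert this using 2
  norm_num [P]

lemma Zq (p : ι → E) (v : ι → ℝ) :
    ∑ i, ∑ j, v i * v j * exp (-dist (p i) (p j)) = ∫ ξ, P ξ * ‖T p v ξ‖ ^ 2 := by
  simp only [dist_eq_norm]
  exact qf P_int poisson p v

lemma P_pos (ξ : E) : 0 < P ξ := by unfold P; positivity

lemma psd (p : ι → E) (v : ι → ℝ) : 0 ≤ ∑ i, ∑ j, v i * v j * exp (-dist (p i) (p j)) := by
  rw [Zq]
  exact integral_nonneg fun ξ => mul_nonneg (P_pos ξ).le (by positivity)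

lemma pd {p : ι → E} (hp : Function.Injective p) {v : ι → ℝ}
    (h : ∑ i, ∑ j, v i * v j * exp (-dist (p i) (p j)) = 0) : v = 0 := by
  rw [Zq, integral_eq_zero_iff_of_nonneg
    (fun ξ => mul_nonneg (P_pos ξ).le (by positivity)) (T_int p v P_int)] at h
  have h1 : T p v =ᵐ[volume] fun _ => 0 := by
    filter_upwards [h] with ξ hξ
    simpa [(P_pos ξ).ne'] using hξ
  have h2 := (Continuous.ae_eq_iff_eq volume (T_cont p v) continuous_const).1 h1
  let χ : ι → Multiplicative E →* ℂ := fun i =>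
    { toFun := fun ξ => Complex.exp ((⟪p i, ξ.toAdd⟫ : ℝ) * Complex.I)
      map_one' := by simp
      map_mul' := fun a b => by simp [inner_add_right, add_mul, Complex.exp_add] }
  have hχ : Function.Injective χ := by
    intro i j e
    by_contra hne
    have n : 0 < ‖p i - p j‖ := norm_pos_iff.2 (sub_ne_zero.2 (hp.ne hne))
    have := congrArg (fun f : Multiplicative E →* ℂ =>
      f (Multiplicative.ofAdd ((π / ‖p i - p j‖ ^ 2) • (p i - p j)))) e
    simp only [χ, MonoidHom.coe_mk, OneHom.coe_mk, toAdd_ofAdd] at this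
    have e2 : ⟪p i, (π / ‖p i - p j‖ ^ 2) • (p i - p j)⟫ =
        ⟪p j, (π / ‖p i - p j‖ ^ 2) • (p i - p j)⟫ + π := by
      rw [← sub_eq_iff_eq_add', ← inner_sub_left, real_inner_smul_right, real_inner_self_eq_norm_sq]
      field_simp
    rw [e2, Complex.ofReal_add, add_mul, Complex.exp_add, Complex.exp_pi_mul_I] at this
    have h3 := Complex.exp_ne_zero ((⟪p j, (π / ‖p i - p j‖ ^ 2) • (p i - p j)⟫ : ℝ) * Complex.I)
    apply h3
    linear_combination (-1 / 2) * this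
  have li := (linearIndependent_monoidHom (Multiplicative E) ℂ).comp χ hχ
  have := Fintype.linearIndependent_iff.1 li (fun i => (v i : ℂ)) (by
    ext ξ
    have := congrFun h2 ξ.toAdd
    simpa [T, χ] using this)
  ext i
  exact_mod_cast this i

/-- comparison kernel -/
noncomputable def K (t : ℝ) : ℝ := 343 / 288 * exp (-(1 * |t|)) +
  -(1960 / 2277) * exp (-(5 / 4 * |t|)) + -(133 / 8096) * exp (-(7 * |t|))

/-- its spectral density -/
noncomputable def k (ξ : ℝ) : ℝ := 343 / 288 * (1 / π / (1 ^ 2 + ξ ^ 2)) +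
  -(1960 / 2277) * (5 / 4 / π / ((5 / 4) ^ 2 + ξ ^ 2)) + -(133 / 8096) * (7 / π / (7 ^ 2 + ξ ^ 2))

lemma rep1 (t : ℝ) : ∫ ξ : ℝ, (k ξ : ℂ) * Complex.exp (↑(t * ξ) * Complex.I) = K t := by
  have i : ∀ a : ℝ, 0 < a → ∀ c : ℂ, Integrable fun ξ : ℝ => c * (((a / π / (a ^ 2 + ξ ^ 2) : ℝ) : ℂ) *
      Complex.exp (↑(t * ξ) * Complex.I)) := fun a ha c =>
    ((Integrable.ofReal (𝕜 := ℂ) (cauchy_int ha)).mul_bdd (c := 1)
      (Continuous.aestronglyMeasurable (by fun_prop))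
      (Eventually.of_forall fun ξ => by rw [Complex.norm_exp_ofReal_mul_I])).const_mul c
  simp only [k, K, Complex.ofReal_add, Complex.ofReal_mul _ (_ / π / _), add_mul, mul_assoc,
    Complex.ofReal_mul _ (exp _)]
  rw [integral_add ((i 1 one_pos _).fun_add (i (5 / 4) (by norm_num) _)) (i 7 (by norm_num) _),
    integral_add (i 1 one_pos _) (i (5 / 4) (by norm_num) _), integral_const_mul,
    integral_const_mul, integral_const_mul, cauchy one_pos, cauchy (by norm_num),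
    cauchy (by norm_num)]

lemma k_bd (ξ : ℝ) : 0 ≤ k ξ ∧ 2 * π * k ξ ≤ (1 + ξ ^ 2) ^ (-(3 / 2) : ℝ) := by
  have e : 2 * π * k ξ = (1 + 4 / 25 * ξ ^ 2) /
      ((1 + ξ ^ 2) * (1 + 16 / 25 * ξ ^ 2) * (1 + ξ ^ 2 / 49)) := by
    unfold k; field_simp; ring
  have h0 : 0 ≤ 2 * π * k ξ := by rw [e]; positivity
  refine ⟨nonneg_of_mul_nonneg_right h0 (by positivity), ?_⟩
  rw [e]
  generalize hs : ξ ^ 2 = s
  have s0 : 0 ≤ s := by rw [← hs]; positivity
  refine (abs_le_of_sq_le_sq' ?_ (by positivity)).2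
  rw [← rpow_natCast ((1 + s) ^ _), ← rpow_mul (by positivity),
    show (-(3 / 2) : ℝ) * (2 : ℕ) = -(3 : ℕ) by norm_num, rpow_neg (by positivity), rpow_natCast,
    div_pow, div_le_iff₀ (by positivity), inv_mul_eq_div, le_div_iff₀ (by positivity)]
  have q : (1 + 4 / 25 * s) ^ 2 * (1 + s) ≤ ((1 + 16 / 25 * s) * (1 + s / 49)) ^ 2 := by
    nlinarith [mul_nonneg (sq_nonneg s) (sq_nonneg (s - 25)), sq_nonneg s]
  nlinarith [mul_le_mul_of_nonneg_left q (sq_nonneg (1 + s))]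

lemma kk_le (ξ : E) : 2 * π * (k (ξ 0) * k (ξ 1)) ≤ P ξ := by
  have h := mul_le_mul (k_bd (ξ 0)).2 (k_bd (ξ 1)).2 (mul_nonneg (by positivity) (k_bd _).1)
    (by positivity)
  rw [← mul_rpow (by positivity) (by positivity)] at h
  have h2 : ((1 + ξ 0 ^ 2) * (1 + ξ 1 ^ 2)) ^ (-(3 / 2) : ℝ) ≤ (1 + ‖ξ‖ ^ 2) ^ (-(3 / 2) : ℝ) := by
    refine rpow_le_rpow_of_nonpos (by positivity) ?_ (by norm_num)
    rw [EuclideanSpace.real_norm_sq_eq, Fin.sum_univ_two]
    nlinarith [mul_nonneg (sq_nonneg (ξ 0)) (sq_nonneg (ξ 1))]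
  unfold P
  rw [le_div_iff₀ (by positivity)]
  linarith

lemma cmp (p : ι → E) (v : ι → ℝ) :
    2 * π * ∑ i, ∑ j, v i * v j * (K (p i 0 - p j 0) * K (p i 1 - p j 1)) ≤
      ∑ i, ∑ j, v i * v j * exp (-dist (p i) (p j)) := by
  have m : Measurable k := by unfold k; fun_prop
  have i2 : Integrable fun ξ : E => 2 * π * (k (ξ 0) * k (ξ 1)) :=
    P_int.mono' (Measurable.aestronglyMeasurable (by fun_prop)) (Eventually.of_forall fun ξ => by
      rw [Real.norm_of_nonneg (mul_nonneg (by positivity) (mul_nonneg (k_bd _).1 (k_bd _).1))]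
      exact kk_le ξ)
  have := qf (κ := fun x => 2 * π * (K (x 0) * K (x 1))) i2 (by
    intro x
    rw [← (PiLp.volume_preserving_toLp (Fin 2)).integral_comp
      (MeasurableEquiv.toLp 2 _).measurableEmbedding]
    have := integral_fintype_prod_volume_eq_prod (E := fun _ : Fin 2 => ℝ)
      (fun i ξ => (k ξ : ℂ) * Complex.exp (↑(x i * ξ) * Complex.I))
    simp only [rep1, Fin.prod_univ_two] at this
    push_cast
    rw [← this, ← integral_const_mul]
    congr 1
    ext ξ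
    simp only [PiLp.inner_apply, Fin.sum_univ_two, RCLike.inner_apply, conj_trivial]
    push_cast
    rw [add_mul, Complex.exp_add]
    ring_nf) p v
  rw [Zq]
  calc _ = ∑ i, ∑ j, v i * v j * (2 * π * (K ((p i - p j) 0) * K ((p i - p j) 1))) := by
        simp only [Finset.mul_sum, PiLp.sub_apply]
        exact Finset.sum_congr rfl fun _ _ => Finset.sum_congr rfl fun _ _ => by ring
    _ ≤ _ := by
        rw [this]
        exact integral_mono (T_int p v i2) (T_int p v P_int) fun ξ =>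
          mul_le_mul_of_nonneg_right (kk_le ξ) (by positivity)

end Pool.Agent.H.MP_6e5b56_gt
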