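import Mathlib
import Pool.Agent.H.MP_6e5b56_gt.B

open MeasureTheory Set Filter Topology Real
open scoped Matrix

namespace Pool.Agent.H.MP_6e5b56_gt

lemma iexp {κ μ : Type} [Fintype κ] [Fintype μ] (x a : κ → ℝ) (y b : μ → ℝ)
    (h : ∀ i j, a i + b j ≠ 0) (m : ℝ) :
    ∫ z in (0 : ℝ)..m, (∑ i, x i * exp (a i * z)) * (∑ j, y j * exp (b j * z)) =
      ∑ i, ∑ j, x i * y j * ((exp ((a i + b j) * m) - 1) / (a i + b j)) := by
  simp only [Finset.sum_mul_sum]
  rw [intervalIntegral.integral_finsetSum fun i _ => Continuous.intervalIntegrable (by fun_prop) _ _]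
  refine Finset.sum_congr rfl fun i _ => ?_
  rw [intervalIntegral.integral_finsetSum fun j _ => Continuous.intervalIntegrable (by fun_prop) _ _]
  refine Finset.sum_congr rfl fun j _ => ?_
  have e : ∀ z, x i * exp (a i * z) * (y j * exp (b j * z)) = x i * y j * exp ((a i + b j) * z) :=
    fun z => by rw [add_mul, exp_add]; ring
  simp only [e]
  rw [intervalIntegral.integral_const_mul,
    intervalIntegral.integral_comp_mul_left (fun z => exp z) (h i j), integral_exp]
  simp [div_eq_inv_mul]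

/-- rates -/
noncomputable def ra : Fin 3 → ℝ := ![1, 5 / 4, 7]
/-- state vectors -/
noncomputable def al : Option ℝ → Fin 3 → ℝ
  | some t => ![7 / 2 * exp (-(1 * t)), -(70 / 23) * exp (-(5 / 4 * t)), -(21 / 46) * exp (-(7 * t))]
  | none => ![72 / 7, -(198 / 23), -(792 / 437)]
/-- features -/
noncomputable def ph : Option ℝ → ℝ → ℝ
  | some t => (Iic t).indicator fun z => ∑ i, al (some t) i * exp (ra i * z)
  | none => fun z => ∑ j, (![1, -(18 / 133)] : Fin 2 → ℝ) j * exp ((![0, -(5 / 2)] : Fin 2 → ℝ) j * z)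
/-- Gram kernel -/
noncomputable def G (X : ℝ) (s t : Option ℝ) : ℝ :=
  ∑ i, ∑ j, al s i * al t j / (ra i + ra j) + ∫ z in Ioc 0 X, ph s z * ph t z

lemma ph_mem (X : ℝ) (s : Option ℝ) : MemLp (ph s) 2 (volume.restrict (Ioc 0 X)) := by
  have h : ∀ f : ℝ → ℝ, Continuous f → MemLp f 2 (volume.restrict (Ioc 0 X)) := fun f hf =>
    (memLp_two_iff_integrable_sq hf.aestronglyMeasurable).2
      ((hf.pow 2).integrableOn_Icc.mono_set Ioc_subset_Icc_self)
  cases s with
  | none => exact h _ (by unfold ph; fun_prop)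
  | some t => exact (h _ (by fun_prop)).indicator measurableSet_Iic

lemma G_psd {ι : Type} [Fintype ι] (X : ℝ) (τ : ι → Option ℝ) :
    (Matrix.of fun i j => G X (τ i) (τ j)).PosSemidef := by
  rw [Matrix.posSemidef_iff_dotProduct_mulVec]
  refine ⟨?_, fun x => ?_⟩
  · ext i j
    simp only [Matrix.conjTranspose_apply, Matrix.of_apply, star_trivial, G, Fin.sum_univ_three,
      mul_comm (ph (τ i) _)]
    ring
  have i : ∀ a b : ι, Integrable (fun z => x a * ph (τ a) z * (x b * ph (τ b) z))
      (volume.restrict (Ioc 0 X)) := fun a b =>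
    ((ph_mem X _).const_mul _).integrable_mul ((ph_mem X _).const_mul _)
  have e : star x ⬝ᵥ ((Matrix.of fun i j => G X (τ i) (τ j)) *ᵥ x) =
      ∑ i, ∑ j, (∑ a, x a * al (τ a) i) * (∑ b, x b * al (τ b) j) / (ra i + ra j) +
      ∫ z in Ioc 0 X, (∑ a, x a * ph (τ a) z) * (∑ b, x b * ph (τ b) z) := by
    simp only [Finset.sum_mul_sum]
    rw [integral_finsetSum _ fun a _ => integrable_finsetSum _ fun b _ => i a b]
    simp only [dotProduct, Matrix.mulVec, star_trivial, Matrix.of_apply, Fin.sum_univ_three,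
      Finset.sum_div, ← Finset.sum_add_distrib, Finset.mul_sum]
    refine Finset.sum_congr rfl fun a _ => ?_
    rw [integral_finsetSum _ fun b _ => i a b, ← Finset.sum_add_distrib]
    refine Finset.sum_congr rfl fun b _ => ?_
    simp only [show ∀ z, x a * ph (τ a) z * (x b * ph (τ b) z) =
      x a * x b * (ph (τ a) z * ph (τ b) z) from fun z => by ring, integral_const_mul, G,
      Fin.sum_univ_three]
    ring
  rw [e]
  refine add_nonneg ?_ (integral_nonneg fun z => mul_self_nonneg _)
  simp only [Fin.sum_univ_three, ra, Matrix.cons_val_zero, Matrix.cons_val_one, Matrix.cons_val]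
  generalize ∑ a, x a * al (τ a) 0 = u
  generalize ∑ a, x a * al (τ a) 1 = v
  generalize ∑ a, x a * al (τ a) 2 = w
  have := add_nonneg (add_nonneg (mul_nonneg (by norm_num : (0 : ℝ) ≤ 1 / 2)
    (sq_nonneg (u + 8 / 9 * v + w / 4))) (mul_nonneg (by norm_num : (0 : ℝ) ≤ 2 / 405)
    (sq_nonneg (v + 45 / 22 * w))))
    (mul_nonneg (by norm_num : (0 : ℝ) ≤ 9 / 224 - 405 / 19602) (sq_nonneg w))
  refine this.trans (le_of_eq ?_)
  ring

lemma cut {X m : ℝ} (h0 : 0 ≤ m) (h1 : m ≤ X) (f : ℝ → ℝ) :
    ∫ z in Ioc 0 X, (Iic m).indicator f z = ∫ z in (0 : ℝ)..m, f z := by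
  rw [integral_indicator measurableSet_Iic, Measure.restrict_restrict measurableSet_Iic,
    inter_comm, Ioc_inter_Iic, min_eq_right h1, intervalIntegral.integral_of_le h0]

lemma G_ss' {X s t : ℝ} (h0 : 0 ≤ t) (h : t ≤ s) (h1 : s ≤ X) :
    G X (some s) (some t) = K (s - t) := by
  have e : (fun z => ph (some s) z * ph (some t) z) = (Iic t).indicator fun z =>
      (∑ i, al (some s) i * exp (ra i * z)) * (∑ i, al (some t) i * exp (ra i * z)) := by
    ext z
    by_cases hz : z ≤ t
    · simp only [ph, indicator_of_mem (mem_Iic.2 hz), indicator_of_mem (mem_Iic.2 (hz.trans h))]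
    · simp only [ph, indicator_of_notMem (mt mem_Iic.1 hz), mul_zero]
  rw [G, e, cut h0 (h.trans h1), iexp _ _ _ _ (fun i j => by
    fin_cases i <;> fin_cases j <;> norm_num [ra]), K, abs_of_nonneg (sub_nonneg.2 h)]
  simp only [Fin.sum_univ_three, ra, al, Matrix.cons_val_zero, Matrix.cons_val_one, Matrix.cons_val,
    add_mul, mul_sub, neg_sub, exp_add, exp_sub, exp_neg]
  field_simp
  ring

lemma G_symm (X : ℝ) (s t : Option ℝ) : G X s t = G X t s := by
  simp only [G, Fin.sum_univ_three, mul_comm (ph s _)]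
  ring

lemma G_ss {X s t : ℝ} (hs : s ∈ Icc 0 X) (ht : t ∈ Icc 0 X) :
    G X (some s) (some t) = K (s - t) := by
  rcases le_total t s with h | h
  · exact G_ss' ht.1 h hs.2
  · rw [G_symm, G_ss' hs.1 h ht.2, K, K, abs_sub_comm]

lemma G_sn {X s : ℝ} (hs : s ∈ Icc 0 X) : G X (some s) none = 1 := by
  have e : (fun z => ph (some s) z * ph none z) = (Iic s).indicator fun z =>
      (∑ i, al (some s) i * exp (ra i * z)) * ph none z := by
    ext z
    by_cases hz : z ≤ s
    · simp only [ph, indicator_of_mem (mem_Iic.2 hz)]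
    · simp only [ph, indicator_of_notMem (mt mem_Iic.1 hz), zero_mul]
  rw [G, e, cut hs.1 hs.2]
  simp only [ph]
  rw [iexp _ _ _ _ (fun i j => by fin_cases i <;> fin_cases j <;> norm_num [ra])]
  simp only [Fin.sum_univ_three, Fin.sum_univ_two, ra, al, Matrix.cons_val_zero,
    Matrix.cons_val_one, Matrix.cons_val, add_mul, neg_mul, exp_add, exp_neg, zero_mul, exp_zero]
  field_simp
  ring

lemma G_nn {X : ℝ} (hX : 1 ≤ X) : 0 ≤ G X none none ∧ G X none none ≤ X + 3.12 := by
  refine ⟨by simpa using (G_psd X fun _ : Unit => none).diag_nonneg (i := ()), ?_⟩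
  have e : ∀ z, ph none z * ph none z = 1 + (-(36 / 133) * exp (-(5 / 2) * z) +
      (18 / 133) ^ 2 * exp (-5 * z)) := by
    intro z
    rw [show -5 * z = -(5 / 2) * z + -(5 / 2) * z by ring, exp_add]
    simp [ph, Fin.sum_univ_two]
    ring
  have c : ∀ a : ℝ, IntervalIntegrable (fun z => exp (a * z)) volume 0 X := fun a =>
    Continuous.intervalIntegrable (by fun_prop) _ _
  simp only [G, e]
  rw [← intervalIntegral.integral_of_le (by linarith),
    intervalIntegral.integral_add (by simp) (((c _).const_mul _).add ((c _).const_mul _)),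
    intervalIntegral.integral_add ((c _).const_mul _) ((c _).const_mul _),
    intervalIntegral.integral_const_mul, intervalIntegral.integral_const_mul,
    intervalIntegral.integral_comp_mul_left (fun z => exp z) (by norm_num),
    intervalIntegral.integral_comp_mul_left (fun z => exp z) (by norm_num), integral_exp,
    integral_exp]
  have h1 : exp (-(5 / 2) * X) ≤ 2 / 7 := by
    rw [neg_mul, exp_neg, inv_le_comm₀ (by positivity) (by norm_num)]
    linarith [add_one_le_exp (5 / 2 * X)]
  have h2 := exp_pos (-5 * X)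
  simp only [Fin.sum_univ_three, ra, al, Matrix.cons_val_zero, Matrix.cons_val_one,
    Matrix.cons_val, mul_zero, exp_zero, smul_eq_mul, intervalIntegral.integral_const]
  norm_num at h1 h2 ⊢
  linarith

lemma upper {ι : Type} [Fintype ι] {X : ℝ} (hX : 1 ≤ X) (p : ι → E)
    (hp : ∀ i, p i 0 ∈ Icc 0 X ∧ p i 1 ∈ Icc 0 X) (v : ι → ℝ) :
    2 * ∑ i, v i - ∑ i, ∑ j, v i * v j * exp (-dist (p i) (p j)) ≤ (X + 3.12) ^ 2 / (2 * π) := by
  have h := ((G_psd X fun o : Option ι => o.map fun i => p i 0).hadamard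
    (G_psd X fun o : Option ι => o.map fun i => p i 1)).dotProduct_mulVec_nonneg
    (fun o => o.elim (-(1 / (2 * π))) v)
  simp only [dotProduct, Matrix.mulVec, star_trivial, Matrix.hadamard_apply, Matrix.of_apply,
    Fintype.sum_option, Option.elim_none, Option.elim_some, Option.map_none, Option.map_some,
    G_symm X none (some _), G_sn (hp _).1, G_sn (hp _).2, G_ss (hp _).1 (hp _).1,
    G_ss (hp _).2 (hp _).2, mul_add, Finset.sum_add_distrib, one_mul, ← Finset.sum_mul] at h
  have c := cmp p v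
  have e : ∑ i, v i * ∑ j, K (p i 0 - p j 0) * K (p i 1 - p j 1) * v j =
      ∑ i, ∑ j, v i * v j * (K (p i 0 - p j 0) * K (p i 1 - p j 1)) := by
    simp only [Finset.mul_sum]
    exact Finset.sum_congr rfl fun _ _ => Finset.sum_congr rfl fun _ _ => by ring
  rw [e] at h
  have g := G_nn hX
  have g2 : G X none none * G X none none ≤ (X + 3.12) ^ 2 := by nlinarith [g.1, g.2]
  have h2 := mul_le_mul_of_nonneg_left h (by positivity : 0 ≤ 2 * π)
  have g3 := div_le_div_of_nonneg_right g2 (by positivity : 0 ≤ 2 * π)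
  refine le_trans ?_ g3
  have : 2 * π * (-(1 / (2 * π)) * (G X none none * G X none none * -(1 / (2 * π))) +
      -(1 / (2 * π)) * ∑ i, v i + ((∑ i, v i) * -(1 / (2 * π)) +
      ∑ i, ∑ j, v i * v j * (K (p i 0 - p j 0) * K (p i 1 - p j 1)))) =
      G X none none * G X none none / (2 * π) - 2 * ∑ i, v i +
      2 * π * ∑ i, ∑ j, v i * v j * (K (p i 0 - p j 0) * K (p i 1 - p j 1)) := by
    field_simp
    ring
  linarith

end Pool.Agent.H.MP_6e5b56_gt
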