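import Mathlib
import Pool.Agent.H.MP_6e5b56_gt.C

open MeasureTheory Set Filter Topology Real
open scoped Matrix

namespace Pool.Agent.H.MP_6e5b56_gt

open Classical in
/-- magnitude of a finite set -/
noncomputable def val (F : Finset E) : ℝ :=
  ∑ i : F, ∑ j : F, (Matrix.of (fun x y : F => exp (-dist x.1 y.1)))⁻¹ i j

/-- magnitude -/
noncomputable def mg (S : Set E) : ℝ := ⨆ F : Finset E, ⨆ (_ : (↑F : Set E) ⊆ S), val F

/-- energy functional -/
noncomputable def En {ι : Type} [Fintype ι] (p : ι → E) (v : ι → ℝ) : ℝ :=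
  2 * ∑ i, v i - ∑ i, ∑ j, v i * v j * exp (-dist (p i) (p j))

lemma val_spec (F : Finset E) : (∃ w, val F = En (fun x : F => x.1) w) ∧
    ∀ v, En (fun x : F => x.1) v ≤ val F := by
  classical
  set Z : Matrix F F ℝ := Matrix.of fun x y : F => exp (-dist x.1 y.1) with hZ
  have q : ∀ a b : F → ℝ, ∑ i, ∑ j, a i * b j * exp (-dist i.1 j.1) = a ⬝ᵥ (Z *ᵥ b) := by
    intro a b
    simp only [dotProduct, Matrix.mulVec, hZ, Matrix.of_apply, Finset.mul_sum]
    exact Finset.sum_congr rfl fun _ _ => Finset.sum_congr rfl fun _ _ => by ring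
  have sy : Zᵀ = Z := by ext i j; simp [hZ, dist_comm]
  have u : IsUnit Z := by
    rw [← Matrix.mulVec_injective_iff_isUnit]
    intro a b e
    have : Z *ᵥ (a - b) = 0 := by rw [Matrix.mulVec_sub, sub_eq_zero]; exact e
    exact sub_eq_zero.1 (pd (p := fun x : F => x.1) Subtype.val_injective (by rw [q, this]; simp))
  set w := Z⁻¹ *ᵥ fun _ => (1 : ℝ) with hw
  have zw : Z *ᵥ w = fun _ => 1 := by
    rw [hw, Matrix.mulVec_mulVec, Matrix.mul_nonsing_inv _ ((Matrix.isUnit_iff_isUnit_det _).1 u),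
      Matrix.one_mulVec]
  have vw : val F = ∑ i, w i := by
    simp only [val, hw, Matrix.mulVec, dotProduct, mul_one]
    congr!
  have d1 : ∀ a : F → ℝ, a ⬝ᵥ (Z *ᵥ w) = ∑ i, a i := fun a => by simp [zw, dotProduct]
  refine ⟨⟨w, by rw [En, q, d1, vw]; ring⟩, fun v => ?_⟩
  have h := psd (fun x : F => x.1) (v - w)
  rw [q, Matrix.mulVec_sub, dotProduct_sub, d1, sub_dotProduct, Matrix.dotProduct_mulVec w,
    ← Matrix.mulVec_transpose, sy, dotProduct_comm _ v, d1] at h
  simp only [Pi.sub_apply, Finset.sum_sub_distrib] at h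
  rw [En, q, vw]
  linarith

lemma mg_le {S : Set E} {B : ℝ} (hB : 0 ≤ B)
    (h : ∀ F : Finset E, (↑F : Set E) ⊆ S → ∀ v, En (fun x : F => x.1) v ≤ B) : mg S ≤ B := by
  refine Real.iSup_le (fun F => Real.iSup_le (fun hF => ?_) hB) hB
  obtain ⟨w, hw⟩ := (val_spec F).1
  rw [hw]
  exact h F hF w

/-- rectangle -/
def R (a b c d : ℝ) : Set E := {p | a ≤ p 0 ∧ p 0 ≤ b ∧ c ≤ p 1 ∧ p 1 ≤ d}

lemma le_mg {S : Set E} {X : ℝ} (hX : 1 ≤ X) (hS : S ⊆ R 0 X 0 X) {ι : Type} [Fintype ι]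
    {p : ι → E} (hp : Function.Injective p) (h : ∀ i, p i ∈ S) (v : ι → ℝ) : En p v ≤ mg S := by
  classical
  have b : BddAbove (range fun F : Finset E => ⨆ (_ : (↑F : Set E) ⊆ S), val F) := by
    refine ⟨(X + 3.12) ^ 2 / (2 * π), ?_⟩
    rintro _ ⟨F, rfl⟩
    refine Real.iSup_le (fun hF => ?_) (by positivity)
    obtain ⟨w, hw⟩ := (val_spec F).1
    rw [hw]
    exact upper hX _ (fun i => have := hS (hF i.2); ⟨⟨this.1, this.2.1⟩, this.2.2⟩) w
  let F := Finset.univ.image p
  have hF : (↑F : Set E) ⊆ S := by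
    intro x hx
    obtain ⟨i, -, rfl⟩ := Finset.mem_image.1 hx
    exact h i
  let e : ι ≃ F := Equiv.ofBijective (fun i => ⟨p i, Finset.mem_image_of_mem _ (Finset.mem_univ i)⟩)
    ⟨fun i j k => hp (congrArg Subtype.val k), fun x => by
      obtain ⟨i, -, hi⟩ := Finset.mem_image.1 x.2
      exact ⟨i, Subtype.ext hi⟩⟩
  refine le_trans ?_ (le_ciSup b F)
  rw [ciSup_pos hF]
  refine le_trans (le_of_eq ?_) ((val_spec F).2 (v ∘ e.symm))
  simp only [En, ← e.sum_comp, Function.comp, Equiv.symm_apply_apply]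
  rfl

lemma mg_nonneg (S : Set E) : 0 ≤ mg S := by
  by_cases b : BddAbove (range fun F : Finset E => ⨆ (_ : (↑F : Set E) ⊆ S), val F)
  · refine le_trans ?_ (le_ciSup b ∅)
    rw [ciSup_pos (by simp)]
    simp [val]
  · rw [mg, Real.iSup_of_not_bddAbove b]

lemma mg_shift {S S' : Set E} {X : ℝ} (hX : 1 ≤ X) (hS : S ⊆ R 0 X 0 X) (a : E)
    (h : ∀ x ∈ S', x - a ∈ S) : mg S' ≤ mg S := by
  refine mg_le (mg_nonneg S) fun F hF v => ?_
  have := le_mg hX hS (p := fun x : F => x.1 - a)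
    (fun x y e => Subtype.ext (sub_left_injective e)) (fun x => h _ (hF x.2)) v
  simpa only [En, dist_sub_right] using this

lemma rows {ι : Type} [Fintype ι] (p : ι → E) {r : ℝ} (hr : 0 < r)
    (h : ∀ i, ∑ j, exp (-dist (p i) (p j)) ≤ r) :
    Fintype.card ι / r ≤ En p fun _ => 1 / r := by
  have : ∑ i, ∑ j, 1 / r * (1 / r) * exp (-dist (p i) (p j)) ≤ ∑ _i : ι, 1 / r := by
    refine Finset.sum_le_sum fun i _ => ?_
    rw [← Finset.mul_sum]
    calc _ ≤ 1 / r * (1 / r) * r := mul_le_mul_of_nonneg_left (h i) (by positivity)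
      _ = _ := by field_simp
  simp only [En, Finset.sum_const, Finset.card_univ, nsmul_eq_mul] at this ⊢
  rw [div_eq_mul_one_div]
  linarith

lemma cell {V : Type} [NormedAddCommGroup V] [MeasureSpace V] [BorelSpace V]
    [(volume : Measure V).IsAddRightInvariant] (hi : Integrable fun y : V => exp (-‖y‖))
    {ι : Type} [Fintype ι] (q : ι → V) (C : ι → Set V) (hC : ∀ j, MeasurableSet (C j))
    (hd : Pairwise (Function.onFun Disjoint C)) {m δ : ℝ} (hm : 0 < m)
    (hv : ∀ j, volume (C j) = ENNReal.ofReal m) (hδ : ∀ j, ∀ y ∈ C j, ‖y - q j‖ ≤ δ) (x : V) :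
    ∑ j, exp (-‖q j - x‖) ≤ exp δ * (∫ y : V, exp (-‖y‖)) / m := by
  have i := hi.comp_sub_right x
  rw [le_div_iff₀ hm, ← integral_sub_right_eq_self _ x, Finset.sum_mul]
  calc _ ≤ ∑ j, exp δ * ∫ y in C j, exp (-‖y - x‖) := by
        refine Finset.sum_le_sum fun j _ => ?_
        have : ∫ _y in C j, exp (-‖q j - x‖) = exp (-‖q j - x‖) * m := by
          rw [setIntegral_const, measureReal_def, hv, ENNReal.toReal_ofReal hm.le, smul_eq_mul,
            mul_comm]
        rw [← this, ← integral_const_mul]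
        refine setIntegral_mono_on (integrableOn_const (by rw [hv]; simp))
          (i.const_mul _).integrableOn (hC j) fun y hy => ?_
        rw [← exp_add]
        apply exp_le_exp.2
        have := norm_sub_le_norm_sub_add_norm_sub y (q j) x
        linarith [hδ j y hy]
    _ = exp δ * ∫ y in ⋃ j, C j, exp (-‖y - x‖) := by
        rw [integral_iUnion_fintype hC hd fun j => i.integrableOn, Finset.mul_sum]
    _ ≤ _ := mul_le_mul_of_nonneg_left (setIntegral_le_integral i
        (Eventually.of_forall fun y => (exp_pos _).le)) (exp_pos _).le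

lemma ival {V : Type} [NormedAddCommGroup V] [InnerProductSpace ℝ V] [MeasurableSpace V]
    [BorelSpace V] [FiniteDimensional ℝ V] [Nontrivial V] {d : ℕ} (hd : Module.finrank ℝ V = d + 1) :
    ∫ y : V, exp (-‖y‖) = (d + 1) * (volume.real (Metric.ball (0 : V) 1) * d.factorial) := by
  rw [integral_fun_norm_addHaar volume fun r => exp (-r), hd, ← Gamma_nat_eq_factorial,
    Gamma_eq_integral (by positivity)]
  simp [mul_comm]

lemma i1 : ∫ y : ℝ, exp (-‖y‖) = 2 := by
  rw [ival (d := 0) (by simp)]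
  simp [Real.ball_eq_Ioo]
  norm_num

lemma i2 : ∫ y : E, exp (-‖y‖) = 2 * π := by
  rw [ival (d := 1) (by simp), measureReal_def, EuclideanSpace.volume_ball_fin_two]
  simp [pi_pos.le]
  norm_num

lemma disj {h : ℝ} (h0 : 0 < h) {i j : ℕ} (e : i ≠ j) :
    Disjoint (Ico (i * h) (i * h + h)) (Ico (j * h) (j * h + h)) := by
  wlog l : i < j generalizing i j
  · exact (this e.symm (lt_of_le_of_ne (not_lt.1 l) e.symm)).symm
  rw [disjoint_left]
  intro y h1 h2
  have : (i : ℝ) + 1 ≤ j := by exact_mod_cast l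
  nlinarith [h1.2, h2.1]

lemma lim {A B : ℝ} (c : ℝ) (h : ∀ δ : ℝ, 0 < δ → A / exp (c * δ) ≤ B) : A ≤ B := by
  have t : Tendsto (fun δ : ℝ => A / exp (c * δ)) (𝓝[>] 0) (𝓝 A) := by
    have : Tendsto (fun δ : ℝ => A / exp (c * δ)) (𝓝 0) (𝓝 (A / exp (c * 0))) :=
      (Continuous.div (by fun_prop) (by fun_prop) fun _ => (exp_pos _).ne').tendsto 0
    simpa using this.mono_left nhdsWithin_le_nhds
  exact le_of_tendsto t (eventually_nhdsWithin_of_forall h)

lemma grid {L h : ℝ} (hL : 0 ≤ L) (h0 : 0 < h) :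
    ∃ N : ℕ, L / h ≤ N ∧ ∀ i : Fin N, (i : ℝ) * h ∈ Icc 0 L := by
  refine ⟨⌊L / h⌋₊ + 1, by push_cast; exact (Nat.lt_floor_add_one _).le, fun i =>
    ⟨by positivity, ?_⟩⟩
  rw [← le_div_iff₀ h0]
  refine le_trans ?_ (Nat.floor_le (by positivity))
  exact_mod_cast Nat.lt_succ_iff.1 i.2

lemma seg {S : Set E} {X L : ℝ} (hX : 1 ≤ X) (hS : S ⊆ R 0 X 0 X) (hL : 0 ≤ L) (φ : ℝ → E)
    (hφ : ∀ s t, dist (φ s) (φ t) = ‖t - s‖) (h : ∀ s ∈ Icc 0 L, φ s ∈ S) : L / 2 ≤ mg S := by
  refine lim 1 fun δ h0 => ?_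
  obtain ⟨N, n1, n2⟩ := grid hL h0
  have inj : Function.Injective fun i : Fin N => φ (i * δ) := by
    intro i j e
    have := hφ (i * δ) (j * δ)
    simp only at e
    rw [e, dist_self, eq_comm, norm_eq_zero, sub_eq_zero, mul_left_inj' h0.ne'] at this
    exact Fin.ext (by exact_mod_cast this.symm)
  refine le_trans ?_ ((rows (fun i : Fin N => φ (i * δ)) (r := exp δ * 2 / δ) (by positivity)
    fun i => ?_).trans (le_mg hX hS inj (fun i => h _ (n2 i)) _))
  · rw [Fintype.card_fin, one_mul, div_le_div_iff₀ (by positivity) (by positivity)]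
    calc _ = L / δ * exp δ := by field_simp
      _ ≤ _ := by gcongr
  · simp only [hφ]
    rw [← i1]
    refine cell (Integrable.of_integral_ne_zero (by rw [i1]; norm_num)) _
      (fun j : Fin N => Ico (j * δ) (j * δ + δ)) (fun j => measurableSet_Ico)
      (fun i j e => disj h0 (Fin.val_ne_of_ne e)) h0 (fun j => by simp) (fun j y hy => ?_) _
    rw [Real.norm_eq_abs, abs_le]
    constructor <;> linarith [hy.1, hy.2]

lemma sq {X : ℝ} (hX : 1 ≤ X) : X ^ 2 / (2 * π) ≤ mg (R 0 X 0 X) := by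
  refine lim 2 fun δ h0 => ?_
  obtain ⟨N, n1, n2⟩ := grid (L := X) (by linarith) h0
  let p : Fin N × Fin N → E := fun i => !₂[i.1 * δ, i.2 * δ]
  have inj : Function.Injective p := by
    intro i j e
    have e0 := congrArg (fun x : E => x 0) e
    have e1 := congrArg (fun x : E => x 1) e
    simp only [p, Matrix.cons_val_zero, Matrix.cons_val_one, mul_left_inj' h0.ne'] at e0 e1
    exact Prod.ext (Fin.ext (by exact_mod_cast e0)) (Fin.ext (by exact_mod_cast e1))
  refine le_trans ?_ ((rows p (r := exp (2 * δ) * (2 * π) / (δ * δ)) (by positivity)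
    fun i => ?_).trans (le_mg hX subset_rfl inj
      (fun i => ⟨(n2 i.1).1, (n2 i.1).2, (n2 i.2).1, (n2 i.2).2⟩) _))
  · rw [Fintype.card_prod, Fintype.card_fin, div_le_div_iff₀ (by positivity) (by positivity)]
    have : 0 ≤ X / δ := by positivity
    push_cast
    calc _ = X / δ * (X / δ) * exp (2 * δ) := by field_simp
      _ ≤ _ := by gcongr
  · simp only [dist_comm (p i), dist_eq_norm]
    rw [← i2]
    refine cell (Integrable.of_integral_ne_zero (by rw [i2]; positivity)) _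
      (fun j : Fin N × Fin N => WithLp.ofLp ⁻¹' Set.pi univ
        ![Ico (j.1 * δ) (j.1 * δ + δ), Ico (j.2 * δ) (j.2 * δ + δ)]) (fun j => ?_)
      (fun i j e => ?_) (by positivity) (fun j => ?_) (fun j y hy => ?_) _
    · refine (MeasurableSet.univ_pi fun a => ?_).preimage (by fun_prop)
      fin_cases a <;> exact measurableSet_Ico
    · refine disjoint_left.2 fun y h1 h2 => e (Prod.ext ?_ ?_)
      · by_contra k
        exact disjoint_left.1 (disj h0 (Fin.val_ne_of_ne k)) (h1 0 trivial) (h2 0 trivial)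
      · by_contra k
        exact disjoint_left.1 (disj h0 (Fin.val_ne_of_ne k)) (h1 1 trivial) (h2 1 trivial)
    · rw [(PiLp.volume_preserving_ofLp (Fin 2)).measure_preimage, volume_pi_pi,
        ENNReal.ofReal_mul h0.le]
      · simp
      · refine (MeasurableSet.univ_pi fun a => ?_).nullMeasurableSet
        fin_cases a <;> exact measurableSet_Ico
    · have a0 : y 0 ∈ Ico (j.1 * δ) (j.1 * δ + δ) := hy 0 trivial
      have a1 : y 1 ∈ Ico (j.2 * δ) (j.2 * δ + δ) := hy 1 trivial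
      refine (abs_le_of_sq_le_sq' ?_ (by positivity)).2
      rw [EuclideanSpace.real_norm_sq_eq, Fin.sum_univ_two]
      simp only [p, PiLp.sub_apply, Matrix.cons_val_zero, Matrix.cons_val_one]
      nlinarith [a0.1, a0.2, a1.1, a1.2]

end Pool.Agent.H.MP_6e5b56_gt
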