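import Mathlib
import Pool.Agent.H.MP_6e5b56_gt.D

open MeasureTheory Set Filter Topology Real Pointwise

namespace Pool.Agent.H.MP_6e5b56_gt

lemma R_smul {t : ℝ} (ht : 0 < t) (a b c d : ℝ) :
    t • R a b c d = R (t * a) (t * b) (t * c) (t * d) := by
  ext p
  rw [mem_smul_set_iff_inv_smul_mem₀ ht.ne']
  simp only [R, mem_ofPred_eq, PiLp.smul_apply, smul_eq_mul, le_inv_mul_iff₀ ht,
    inv_mul_le_iff₀ ht]

lemma R_cvx (a b c d : ℝ) : Convex ℝ (R a b c d) := by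
  rintro x ⟨h1, h2, h3, h4⟩ y ⟨k1, k2, k3, k4⟩ s t hs ht e
  have e' : s = 1 - t := by linarith
  subst e'
  simp only [R, mem_ofPred_eq, PiLp.add_apply, PiLp.smul_apply, smul_eq_mul]
  refine ⟨?_, ?_, ?_, ?_⟩ <;> nlinarith

lemma R_cpt (a b c d : ℝ) : IsCompact (R a b c d) := by
  have : R a b c d = WithLp.toLp 2 '' Icc ![a, c] ![b, d] := by
    ext p
    constructor
    · rintro ⟨h1, h2, h3, h4⟩
      refine ⟨p.ofLp, ⟨fun i => ?_, fun i => ?_⟩, rfl⟩ <;> fin_cases i <;> simpa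
    · rintro ⟨q, ⟨h1, h2⟩, rfl⟩
      exact ⟨h1 0, h2 0, h1 1, h2 1⟩
  rw [this]
  exact isCompact_Icc.image (by fun_prop)

lemma main (H : ∀ A B : Set E, IsCompact A → IsCompact B → Convex ℝ A → Convex ℝ B →
    Convex ℝ (A ∪ B) → Tendsto (fun t : ℝ => mg (t • (A ∪ B)) + mg (t • (A ∩ B)) - mg (t • A) -
      mg (t • B)) atTop (𝓝 0)) : False := by
  have u1 : R 0 1 0 1 ∪ R 1 2 0 1 = R 0 2 0 1 := by
    ext p
    simp only [R, mem_union, mem_ofPred_eq]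
    constructor
    · rintro (⟨a, b, c⟩ | ⟨a, b, c⟩) <;> exact ⟨by linarith, by linarith, c⟩
    · rintro ⟨a, b, c⟩
      rcases le_total (p 0) 1 with h | h
      exacts [Or.inl ⟨a, h, c⟩, Or.inr ⟨h, b, c⟩]
  have u2 : R 0 2 0 1 ∪ R 0 2 1 2 = R 0 2 0 2 := by
    ext p
    simp only [R, mem_union, mem_ofPred_eq]
    constructor
    · rintro (⟨a, b, c, d⟩ | ⟨a, b, c, d⟩) <;> exact ⟨a, b, by linarith, by linarith⟩
    · rintro ⟨a, b, c, d⟩
      rcases le_total (p 1) 1 with h | h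
      exacts [Or.inl ⟨a, b, c, h⟩, Or.inr ⟨a, b, h, d⟩]
  have h1 := (H _ _ (R_cpt 0 1 0 1) (R_cpt 1 2 0 1) (R_cvx _ _ _ _) (R_cvx _ _ _ _)
    (u1 ▸ R_cvx _ _ _ _)).eventually (gt_mem_nhds one_pos)
  have h2 := (H _ _ (R_cpt 0 2 0 1) (R_cpt 0 2 1 2) (R_cvx _ _ _ _) (R_cvx _ _ _ _)
    (u2 ▸ R_cvx _ _ _ _)).eventually (gt_mem_nhds one_pos)
  obtain ⟨T, hT⟩ := eventually_atTop.1 ((h1.and h2).and (eventually_ge_atTop 1))
  set s : ℝ → ℝ := fun t => mg (R 0 t 0 t) with hs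
  have step : ∀ t, T ≤ t → s (2 * t) - 2 * t + 1 ≤ 4 * (s t - t + 1) := by
    intro t ht
    obtain ⟨⟨k1, k2⟩, t1⟩ := hT t ht
    have t0 : 0 < t := by linarith
    simp only [u1, u2, smul_set_inter₀ t0.ne', R_smul t0, mul_zero, mul_one] at k1 k2
    have X1 : 1 ≤ t * 2 := by linarith
    have a1 : mg (R t (t * 2) 0 t) ≤ mg (R 0 t 0 t) :=
      mg_shift t1 subset_rfl !₂[t, 0] fun x hx => by
        simp only [R, mem_ofPred_eq, PiLp.sub_apply, Matrix.cons_val_zero, Matrix.cons_val_one]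
        exact ⟨by linarith [hx.1], by linarith [hx.2.1], by linarith [hx.2.2.1],
          by linarith [hx.2.2.2]⟩
    have a2 : mg (R 0 (t * 2) t (t * 2)) ≤ mg (R 0 (t * 2) 0 t) :=
      mg_shift X1 (fun x hx => ⟨hx.1, hx.2.1, hx.2.2.1, by linarith [hx.2.2.2]⟩) !₂[0, t]
        fun x hx => by
        simp only [R, mem_ofPred_eq, PiLp.sub_apply, Matrix.cons_val_zero, Matrix.cons_val_one]
        exact ⟨by linarith [hx.1], by linarith [hx.2.1], by linarith [hx.2.2.1],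
          by linarith [hx.2.2.2]⟩
    have a3 : t / 2 ≤ mg (R 0 t 0 t ∩ R t (t * 2) 0 t) :=
      seg t1 inter_subset_left t0.le (fun y => !₂[t, y]) (fun a b => by
        simp [EuclideanSpace.dist_eq, sqrt_sq_eq_abs, abs_sub_comm, Real.dist_eq])
        fun y hy => ⟨⟨t0.le, le_rfl, hy.1, hy.2⟩, ⟨le_rfl, (by linarith : t ≤ t * 2), hy.1, hy.2⟩⟩
    have a4 : t * 2 / 2 ≤ mg (R 0 (t * 2) 0 t ∩ R 0 (t * 2) t (t * 2)) :=
      seg X1 (fun x hx => ⟨hx.1.1, hx.1.2.1, hx.1.2.2.1, hx.2.2.2.2⟩) (by linarith)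
        (fun y => !₂[y, t]) (fun a b => by
        simp [EuclideanSpace.dist_eq, sqrt_sq_eq_abs, abs_sub_comm, Real.dist_eq])
        fun y hy => ⟨⟨hy.1, hy.2, t0.le, le_rfl⟩, ⟨hy.1, hy.2, le_rfl, (by linarith : t ≤ t * 2)⟩⟩
    simp only [hs, mul_comm 2 t]
    linarith
  have T1 := (hT T le_rfl).2
  have iter : ∀ t, T ≤ t → ∀ n : ℕ, s (2 ^ n * t) - 2 ^ n * t + 1 ≤ (2 ^ n) ^ 2 * (s t - t + 1) := by
    intro t ht n
    induction n with
    | zero => simp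
    | succ n ih =>
      have p : (1 : ℝ) ≤ 2 ^ n := one_le_pow₀ one_le_two
      have := step (2 ^ n * t) (by nlinarith)
      rw [pow_succ, mul_comm _ 2, mul_assoc, mul_pow]
      linarith
  have low : ∀ t, T ≤ t → t ^ 2 / (2 * π) ≤ s t - t + 1 := by
    intro t ht
    have t1 : 1 ≤ t := T1.trans ht
    refine le_of_forall_pos_le_add fun ε hε => ?_
    obtain ⟨n, hn⟩ := pow_unbounded_of_one_lt (t / ε) one_lt_two
    have p : (1 : ℝ) ≤ 2 ^ n := one_le_pow₀ one_le_two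
    have k1 := iter t ht n
    have k2 := sq (X := 2 ^ n * t) (by nlinarith)
    rw [div_lt_iff₀ hε] at hn
    generalize (2 : ℝ) ^ n = y at *
    have k3 : (y * t) ^ 2 / (2 * π) = y ^ 2 * (t ^ 2 / (2 * π)) := by ring
    have k4 : y * t ≤ y ^ 2 * ε := by nlinarith
    refine le_of_mul_le_mul_left ?_ (by positivity : 0 < y ^ 2)
    simp only [hs] at k1 ⊢
    linarith
  have k1 := low (T + 1000) (by linarith)
  have k2 : s (T + 1000) ≤ (T + 1000 + 3.12) ^ 2 / (2 * π) :=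
    mg_le (by positivity) fun F hF v => upper (by linarith) _
      (fun i => have := hF i.2; ⟨⟨this.1, this.2.1⟩, this.2.2⟩) v
  have k3 : T + 1000 - 1 ≤ ((T + 1000 + 3.12) ^ 2 - (T + 1000) ^ 2) / (2 * π) := by
    rw [sub_div]; linarith
  rw [le_div_iff₀ (by positivity)] at k3
  nlinarith [pi_gt_d2]

end Pool.Agent.H.MP_6e5b56_gt
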